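import Pool.Agent.H193.RF.Stm

/-! Project RF of helper193 (MP_434e52_an): an element of `Mp p` which is trivial at the points
`(0, Q)` is of the form `gg b`. -/

set_option autoImplicit false
set_option linter.unusedSectionVars false

namespace Pool.Agent.H384.RFD2

open Pool.Agent.H197R3
open Pool.Agent.H258.CR

variable {A : Type} [AddCommGroup A]

lemma finite_dep (p : A →+ A) {w : XX A → Circle} (hw : w ∈ Mp p) :
    ∃ S : Finset A, ∀ v v' : A →+ ZMod 2, (∀ s ∈ S, v s = v' s) → w (v, 0) = w (v', 0) := by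
  classical
  induction hw using Subgroup.closure_induction with
  | mem z hz =>
    rcases hz with ⟨a, rfl⟩ | ⟨a, rfl⟩
    · refine ⟨{a}, fun v v' h => ?_⟩
      simp only [gg]
      rw [h a (Finset.mem_singleton_self a)]
    · refine ⟨{p a}, fun v v' h => ?_⟩
      simp only [up]
      rw [h (p a) (Finset.mem_singleton_self _)]
  | one => exact ⟨∅, fun _ _ _ => rfl⟩
  | mul x y _ _ hx hy =>
    obtain ⟨S, hS⟩ := hx
    obtain ⟨T, hT⟩ := hy
    refine ⟨S ∪ T, fun v v' h => ?_⟩
    rw [Pi.mul_apply, Pi.mul_apply, hS v v' (fun s hs => h s (Finset.mem_union_left _ hs)),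
      hT v v' (fun s hs => h s (Finset.mem_union_right _ hs))]
  | inv x _ hx =>
    obtain ⟨S, hS⟩ := hx
    refine ⟨S, fun v v' h => ?_⟩
    rw [Pi.inv_apply, Pi.inv_apply, hS v v' h]

lemma sq_one {z : Circle} (h : z * z = 1) : ∃ c : ZMod 2, z = sg c := by
  have h1 : (z : ℂ) * (z : ℂ) = 1 := by rw [← Circle.coe_mul, h, Circle.coe_one]
  rcases mul_self_eq_one_iff.1 h1 with h2 | h2
  · refine ⟨0, ?_⟩
    rw [sg_zero]
    apply Circle.ext
    rw [h2, Circle.coe_one]
  · refine ⟨1, ?_⟩
    rw [sg1]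
    apply Circle.ext
    rw [h2, Circle.coe_mul, iC_coe, Complex.I_mul_I]

lemma sg_injective : Function.Injective sg := by
  intro x y h
  have h1 : sg (x + y) = 1 := by rw [sg_add, h, sg_sq]
  rcases z2 (x + y) with h2 | h2
  · rw [← CharTwo.add_self_eq_zero y] at h2
    exact add_right_cancel h2
  · rw [h2, sg1] at h1
    have h3 := congrArg (fun z : Circle => (z : ℂ)) h1
    simp only [Circle.coe_mul, iC_coe, Complex.I_mul_I, Circle.coe_one] at h3
    norm_num at h3

theorem s_D2 : Pool.Agent.H193.RF.S_D2 := by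
  intro A _ _ p w hw h0
  have hred : ∀ v Q, w (v, Q) = w (v, 0) := by
    intro v Q
    have := Mp_char p hw 0 v Q 0
    rw [AddMonoidHom.zero_comp, vv_zero_left, add_zero, add_zero, zero_add, h0, one_mul] at this
    exact this
  have hadd : ∀ v v' : A →+ ZMod 2, w (v + v', 0) = w (v, 0) * w (v', 0) := by
    intro v v'
    rw [← Mp_char p hw v v' 0 0, hred (v + v') (0 + 0 + vv (v.comp p) (v'.comp p))]
  have hsq : ∀ v : A →+ ZMod 2, w (v, 0) * w (v, 0) = 1 := by
    intro v
    rw [← hadd]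
    have e : v + v = 0 := by
      ext a
      rw [AddMonoidHom.add_apply, AddMonoidHom.zero_apply]
      exact CharTwo.add_self_eq_zero _
    rw [e, h0]
  choose c hc using fun v => sq_one (hsq v)
  have hcadd : ∀ v v' : A →+ ZMod 2, c (v + v') = c v + c v' := by
    intro v v'
    apply sg_injective
    rw [sg_add, ← hc, ← hc, ← hc, hadd]
  have hc0 : c 0 = 0 := by
    apply sg_injective
    rw [← hc, h0, sg_zero]
  let cl : (A →+ ZMod 2) →ₗ[ZMod 2] ZMod 2 :=
    AddMonoidHom.toZModLinearMap 2 { toFun := c, map_zero' := hc0, map_add' := hcadd }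
  have hcl : ∀ v, cl v = c v := fun _ => rfl
  obtain ⟨S, hS⟩ := finite_dep p hw
  let L : S → (A →+ ZMod 2) →ₗ[ZMod 2] ZMod 2 := fun s =>
    AddMonoidHom.toZModLinearMap 2
      { toFun := fun v => v s.1, map_zero' := rfl, map_add' := fun _ _ => rfl }
  have hL : ∀ s v, L s v = v s.1 := fun _ _ => rfl
  have hker : ⨅ i, LinearMap.ker (L i) ≤ LinearMap.ker cl := by
    intro v hv
    rw [Submodule.mem_iInf] at hv
    rw [LinearMap.mem_ker, hcl]
    apply sg_injective
    rw [← hc, sg_zero, hS v 0 ?_, h0]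
    intro s hs
    have := hv ⟨s, hs⟩
    rw [LinearMap.mem_ker, hL] at this
    rw [this, AddMonoidHom.zero_apply]
  have hspan := mem_span_of_iInf_ker_le_ker hker
  have key : ∀ K ∈ Submodule.span (ZMod 2) (Set.range L), ∃ b : A, ∀ v, K v = v b := by
    intro K hK
    induction hK using Submodule.span_induction with
    | mem x hx =>
      obtain ⟨s, rfl⟩ := hx
      exact ⟨s.1, fun v => rfl⟩
    | zero => exact ⟨0, fun v => by rw [map_zero, LinearMap.zero_apply]⟩
    | add x y _ _ hx hy =>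
      obtain ⟨b, hb⟩ := hx
      obtain ⟨b', hb'⟩ := hy
      exact ⟨b + b', fun v => by rw [LinearMap.add_apply, hb, hb', map_add]⟩
    | smul r x _ hx =>
      obtain ⟨b, hb⟩ := hx
      rcases z2 r with rfl | rfl
      · exact ⟨0, fun v => by rw [zero_smul, LinearMap.zero_apply, map_zero]⟩
      · exact ⟨b, fun v => by rw [one_smul, hb]⟩
  obtain ⟨b, hb⟩ := key cl hspan
  refine ⟨b, ?_⟩
  funext x
  obtain ⟨v, Q⟩ := x
  show w (v, Q) = sg (v b)
  rw [hred, hc, ← hcl, hb]

end Pool.Agent.H384.RFD2
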