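import Pool.Agent.H193.RF.Stm

/-! Project RF of helper193 (MP_434e52_an): residual finiteness of `EL_3(k[X][Y])`. -/

set_option autoImplicit false
set_option linter.unusedSectionVars false

namespace Pool.Agent.H384.RFF1

open Polynomial Pool.Agent.H258.CR Pool.Agent.H193.RF

/-- nonzero elements of `k[X][Y]`, `k` a finite field, are outside some ideal of finite index -/
theorem exists_ideal (k : Type) [Field k] [Finite k] (f : k[X][X]) (hf : f ≠ 0) :
    ∃ J : Ideal (k[X][X]), Finite (k[X][X] ⧸ J) ∧ f ∉ J := by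
  let φ : k[X][X] →+* k := (Polynomial.evalRingHom (0 : k)).comp (Polynomial.evalRingHom (0 : k[X]))
  have hI : Finite (k[X][X] ⧸ RingHom.ker φ) :=
    Finite.of_injective (RingHom.kerLift φ) (RingHom.kerLift_injective φ)
  have hne : RingHom.ker φ ≠ ⊤ := RingHom.ker_ne_top φ
  have h1 := Ideal.iInf_pow_eq_bot_of_isDomain (RingHom.ker φ) hne
  have h2 : ∃ n, f ∉ RingHom.ker φ ^ n := by
    by_contra h
    push Not at h
    have h3 : f ∈ ⨅ i, RingHom.ker φ ^ i := (Submodule.mem_iInf _).2 h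
    rw [h1] at h3
    exact hf ((Submodule.mem_bot _).1 h3)
  obtain ⟨n, hn⟩ := h2
  exact ⟨RingHom.ker φ ^ n, Ideal.finite_quotient_pow (IsNoetherian.noetherian _) n, hn⟩

/-- reduction modulo an ideal on `Lam R` -/
noncomputable def red {R : Type} [CommRing R] (J : Ideal R) :
    Lam R →* (Matrix (Fin 3) (Fin 3) (R ⧸ J))ˣ :=
  (Units.map ((Ideal.Quotient.mk J).mapMatrix :
    Matrix (Fin 3) (Fin 3) R →+* Matrix (Fin 3) (Fin 3) (R ⧸ J)).toMonoidHom).comp
    (Lam R).subtype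

theorem red_ker {R : Type} [CommRing R] (J : Ideal R) (x : Lam R) (hx : x ∈ (red J).ker)
    (i j : Fin 3) : (x.1.1 i j) - (1 : Matrix (Fin 3) (Fin 3) R) i j ∈ J := by
  have h1 : red J x = 1 := hx
  have h2 : (Ideal.Quotient.mk J).mapMatrix x.1.1 = 1 := congrArg Units.val h1
  have h3 : (Ideal.Quotient.mk J) (x.1.1 i j) = (1 : Matrix (Fin 3) (Fin 3) (R ⧸ J)) i j := by
    rw [← h2]; rfl
  have h4 : (Ideal.Quotient.mk J) ((1 : Matrix (Fin 3) (Fin 3) R) i j) =
      (1 : Matrix (Fin 3) (Fin 3) (R ⧸ J)) i j := by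
    rw [← map_one (Ideal.Quotient.mk J).mapMatrix]; rfl
  rw [← Ideal.Quotient.eq, h3, h4]

theorem red_index {R : Type} [CommRing R] (J : Ideal R) [Finite (R ⧸ J)] :
    (red J).ker.index ≠ 0 := by
  have hfin : Finite (Matrix (Fin 3) (Fin 3) (R ⧸ J)) :=
    inferInstanceAs (Finite (Fin 3 → Fin 3 → R ⧸ J))
  exact (Subgroup.finiteIndex_ker (red J)).index_ne_zero

theorem s_F1 : Pool.Agent.H193.RF.S_F1 := by
  intro k _ _ x hx
  have h1 : ∃ i j, (x.1.1 i j) - (1 : Matrix (Fin 3) (Fin 3) (k[X][X])) i j ≠ 0 := by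
    by_contra h
    push Not at h
    apply hx
    apply Subtype.ext
    apply Units.ext
    ext1 i j
    exact sub_eq_zero.1 (h i j)
  obtain ⟨i, j, hij⟩ := h1
  obtain ⟨J, hJ, hf⟩ := exists_ideal k _ hij
  exact ⟨(red J).ker, red_index J, fun h => hf (red_ker J x h i j)⟩

end Pool.Agent.H384.RFF1
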